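import Mathlib

namespace Pool.Agent.Helper865.AStar
open Cardinal Set Order
universe u

/-- a maximal subset of `B` which is pairwise `r` -/
theorem exists_max_pairwise {X : Type u} (r : X → X → Prop) (hs : ∀ x y, r x y → r y x) (B : Set X) :
    ∃ I : Set X, I ⊆ B ∧ I.Pairwise r ∧ ∀ x ∈ B, x ∉ I → ∃ y ∈ I, ¬ r y x := by
  obtain ⟨I, hI⟩ := zorn_subset {I : Set X | I ⊆ B ∧ I.Pairwise r} (by
    intro C hC hchain
    refine ⟨⋃₀ C, ⟨?_, ?_⟩, fun s hs => subset_sUnion_of_mem hs⟩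
    · exact sUnion_subset (fun s hs => (hC hs).1)
    · rintro x ⟨s, hs, hxs⟩ y ⟨t, ht, hyt⟩ hxy
      rcases hchain.total hs ht with h | h
      · exact (hC ht).2 (h hxs) hyt hxy
      · exact (hC hs).2 hxs (h hyt) hxy)
  refine ⟨I, hI.prop.1, hI.prop.2, ?_⟩
  intro x hxB hxI
  by_contra hcon
  push Not at hcon
  have hmem : insert x I ∈ {I : Set X | I ⊆ B ∧ I.Pairwise r} :=
    ⟨insert_subset hxB hI.prop.1, pairwise_insert.2
      ⟨hI.prop.2, fun y hy _ => ⟨hs _ _ (hcon y hy), hcon y hy⟩⟩⟩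
  exact hxI (hI.le_of_ge hmem (subset_insert x I) (mem_insert x I))

section closure
variable {X : Type u} {W : Type u} [LinearOrder W] [WellFoundedLT W]

/-- iteration of an operator along a well-order -/
noncomputable def iter (G : Set X → Set X) : W → Set X :=
  WellFounded.fix (wellFounded_lt (α := W)) (fun w ih => ⋃ v : Set.Iio w, G (ih v.1 v.2))

theorem iter_eq (G : Set X → Set X) (w : W) :
    iter G w = ⋃ v : Set.Iio w, G (iter G v.1) := by
  unfold iter
  rw [WellFounded.fix_eq]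

end closure

/-- closing off under an operation on small subsets -/
theorem exists_closed {X : Type u} (μ lam : Cardinal.{u}) (hμ : ℵ₀ ≤ μ) (hlam : lam ^ μ ≤ lam)
    (hml : μ < lam) (F : Set X → Set X) (hF : ∀ K : Set X, #K ≤ μ → #(F K) ≤ lam) :
    ∃ Y : Set X, #Y ≤ lam ∧ ∀ K ⊆ Y, #K ≤ μ → F K ⊆ Y := by
  classical
  have hl0 : ℵ₀ ≤ lam := hμ.trans hml.le
  let W : Type u := (succ μ).ord.ToType
  have hWcard : #W = succ μ := by simp [W]
  have hWcof : Order.cof W = succ μ := by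
    show Order.cof (succ μ).ord.ToType = succ μ
    rw [Ordinal.cof_toType]
    exact (isRegular_succ hμ).cof_ord
  have hWle : #W ≤ lam := by rw [hWcard]; exact Order.succ_le_of_lt hml
  let G : Set X → Set X := fun Z => Z ∪ ⋃ K : {K : Set X // K ⊆ Z ∧ #K ≤ μ}, F K.1
  have hG : ∀ Z : Set X, #Z ≤ lam → #(G Z) ≤ lam := by
    intro Z hZ
    refine (mk_union_le _ _).trans ?_
    refine add_le_of_le hl0 hZ ?_
    refine (mk_iUnion_le _).trans ?_
    have h1 : #{K : Set X // K ⊆ Z ∧ #K ≤ μ} ≤ lam := by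
      refine (mk_bounded_subset_le Z μ).trans ?_
      refine (power_le_power_right (max_le hZ hl0)).trans hlam
    have h2 : (⨆ K : {K : Set X // K ⊆ Z ∧ #K ≤ μ}, #(F K.1)) ≤ lam :=
      ciSup_le' (fun K => hF K.1 K.2.2)
    calc #{K : Set X // K ⊆ Z ∧ #K ≤ μ} * (⨆ K : {K : Set X // K ⊆ Z ∧ #K ≤ μ}, #(F K.1))
        ≤ lam * lam := mul_le_mul' h1 h2
      _ = lam := mul_eq_self hl0
  have hit : ∀ w : W, #(iter G w) ≤ lam := by
    intro w
    induction w using (wellFounded_lt (α := W)).induction with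
    | _ w ih =>
      rw [iter_eq]
      refine (mk_iUnion_le _).trans ?_
      have h1 : #(Set.Iio w) ≤ lam := (mk_set_le _).trans hWle
      have h2 : (⨆ v : Set.Iio w, #(G (iter G v.1))) ≤ lam :=
        ciSup_le' (fun v => hG _ (ih v.1 v.2))
      calc #(Set.Iio w) * (⨆ v : Set.Iio w, #(G (iter G v.1))) ≤ lam * lam := mul_le_mul' h1 h2
        _ = lam := mul_eq_self hl0
  have hmono : ∀ v w : W, v ≤ w → iter G v ⊆ iter G w := by
    intro v w hvw
    rw [iter_eq G v, iter_eq G w]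
    refine iUnion_subset (fun u => ?_)
    exact subset_iUnion_of_subset (⟨u.1, lt_of_lt_of_le u.2 hvw⟩ : Set.Iio w) subset_rfl
  refine ⟨⋃ w : W, iter G w, ?_, ?_⟩
  · refine (mk_iUnion_le _).trans ?_
    have h2 : (⨆ w : W, #(iter G w)) ≤ lam := ciSup_le' hit
    calc #W * (⨆ w : W, #(iter G w)) ≤ lam * lam := mul_le_mul' hWle h2
      _ = lam := mul_eq_self hl0
  · intro K hK hKc
    have hch : ∀ x : K, ∃ w : W, x.1 ∈ iter G w := fun x => by
      simpa using hK x.2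
    choose f hf using hch
    have hnc : ¬ IsCofinal (range f) := by
      intro hcof
      have h1 := Order.cof_le hcof
      rw [hWcof] at h1
      have h2 : #(range f) ≤ μ := mk_range_le.trans hKc
      exact absurd (h1.trans h2) (not_le.2 (lt_succ μ))
    have hnc' : ∃ w : W, ∀ x : K, f x < w := by
      unfold IsCofinal at hnc
      push Not at hnc
      obtain ⟨w, hw⟩ := hnc
      exact ⟨w, fun x => hw (f x) ⟨x, rfl⟩⟩
    obtain ⟨w, hw⟩ := hnc'
    have hnm : ∃ w' : W, w < w' := by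
      have : ¬ IsCofinal ({w} : Set W) := by
        intro hcof
        have h1 := Order.cof_le hcof
        rw [hWcof] at h1
        have h2 : #({w} : Set W) ≤ μ := by
          rw [mk_singleton]; exact (one_le_aleph0).trans hμ
        exact absurd (h1.trans h2) (not_le.2 (lt_succ μ))
      unfold IsCofinal at this
      push Not at this
      obtain ⟨w', hw'⟩ := this
      exact ⟨w', hw' w rfl⟩
    obtain ⟨w', hw'⟩ := hnm
    have hKw : K ⊆ iter G w := fun x hx => hmono _ _ (hw ⟨x, hx⟩).le (hf ⟨x, hx⟩)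
    have h0 : F K ⊆ ⋃ K' : {K' : Set X // K' ⊆ iter G w ∧ #K' ≤ μ}, F K'.1 :=
      subset_iUnion (fun K' : {K' : Set X // K' ⊆ iter G w ∧ #K' ≤ μ} => F K'.1) ⟨K, hKw, hKc⟩
    have h1 : F K ⊆ G (iter G w) := subset_union_of_subset_right h0 _
    have h2 : G (iter G w) ⊆ iter G w' := by
      rw [iter_eq G w']
      exact subset_iUnion_of_subset (⟨w, hw'⟩ : Set.Iio w') subset_rfl
    exact (h1.trans h2).trans (subset_iUnion _ w')

/-- `(2^μ)⁺ → ((2^μ)⁺, μ⁺)²` (Erdős–Rado) for a symmetric relation `c`. -/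
theorem erdos_rado {X : Type u} (μ : Cardinal.{u}) (hμ : ℵ₀ ≤ μ) (c : X → X → Prop)
    (hs : ∀ x y, c x y → c y x) (hX : 2 ^ μ < #X) :
    (∃ K : Set X, μ < #K ∧ K.Pairwise c) ∨
      (∃ I : Set X, 2 ^ μ < #I ∧ I.Pairwise (fun x y => ¬ c x y)) := by
  classical
  by_contra hcon
  rw [not_or] at hcon
  obtain ⟨hcon1, hcon2⟩ := hcon
  push Not at hcon1 hcon2
  have hK0 : ∀ K : Set X, K.Pairwise c → #K ≤ μ := by
    intro K hK
    by_contra hlt
    exact hcon1 K (not_le.1 hlt) hK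
  have hI0 : ∀ I : Set X, I.Pairwise (fun x y => ¬ c x y) → #I ≤ 2 ^ μ := by
    intro I hI
    by_contra hlt
    exact hcon2 I (not_le.1 hlt) (by simpa using hI)
  have hsn : ∀ x y, ¬ c x y → ¬ c y x := fun x y h h' => h (hs _ _ h')
  let B : Set X → Set X := fun K => {y | ∀ x ∈ K, x ≠ y ∧ c x y}
  choose I hIB hIp hImax using fun K : Set X => exists_max_pairwise (fun x y => ¬ c x y) hsn (B K)
  have hlam : ((2 : Cardinal.{u}) ^ μ) ^ μ ≤ 2 ^ μ := by
    rw [← power_mul, mul_eq_self hμ]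
  obtain ⟨Y, hYc, hYcl⟩ := exists_closed (X := X) μ (2 ^ μ) hμ hlam (cantor μ) I
    (fun K _ => hI0 _ (hIp K))
  obtain ⟨δ, hδ⟩ : ∃ δ : X, δ ∉ Y := by
    by_contra hall
    push Not at hall
    have : Y = Set.univ := eq_univ_of_forall hall
    rw [this, mk_univ] at hYc
    exact absurd hX (not_lt.2 hYc)
  obtain ⟨K, hKB, hKp, hKmax⟩ := exists_max_pairwise c hs {x | x ∈ Y ∧ c x δ}
  have hKY : K ⊆ Y := fun x hx => (hKB hx).1
  have hIK : I K ⊆ Y := hYcl K hKY (hK0 K hKp)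
  have hδB : δ ∈ B K := fun x hx => ⟨fun h => hδ (h ▸ hKY hx), (hKB hx).2⟩
  obtain ⟨y, hyI, hyδ⟩ := hImax K δ hδB (fun h => hδ (hIK h))
  rw [not_not] at hyδ
  have hyB : y ∈ B K := hIB K hyI
  have hyK : y ∉ K := fun h => (hyB y h).1 rfl
  obtain ⟨x, hx, hxy⟩ := hKmax y ⟨hIK hyI, hyδ⟩ hyK
  exact hxy (hyB x hx).2

end Pool.Agent.Helper865.AStar
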