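import Pool.Agent.Helper865.AStar.Step

namespace Pool.Agent.Helper865.AStar
open Cardinal Set Order
universe u

/-- admissible states of the construction -/
def Valid {S : Type u} (μ : ℕ → Cardinal.{u}) (A : ℕ → Set S) (p : Set ℕ × (ℕ → Set S)) : Prop :=
  p.1.Infinite ∧ ∀ m ∈ p.1, p.2 m ⊆ A m ∧ 2 ^ μ m < #(p.2 m)

theorem main {S : Type u} (col : S → S → Bool) (hsym : ∀ x y, col x y = col y x)
    (κ : Cardinal.{u}) (μ : ℕ → Cardinal.{u}) (hμ0 : ∀ n, ℵ₀ ≤ μ n)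
    (hμ : ∀ n m, n < m → succ (μ n) ≤ μ m) (hcof : ∀ c < κ, ∃ n0, ∀ n, n0 ≤ n → c ≤ μ n)
    (A : ℕ → Set S) (hA : ∀ n m, n < m → #(A n) ≤ 2 ^ μ m) (hA2 : ∀ n, 2 ^ μ n < #(A n))
    (hκ : ∀ n, κ ≤ 2 ^ μ n) :
    ∃ (b : Bool) (H : Set S), H.Pairwise (fun x y => col x y = b) ∧ κ ≤ #H := by
  classical
  by_contra hcon
  have NH : ∀ (b : Bool) (H : Set S), H.Pairwise (fun x y => col x y = b) → #H < κ := by
    intro b H hH
    by_contra hlt
    exact hcon ⟨b, H, hH, not_lt.1 hlt⟩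
  have hstep : ∀ s : {p : Set ℕ × (ℕ → Set S) // Valid μ A p},
      ∃ (b : Bool) (H : Set S) (s' : {p : Set ℕ × (ℕ → Set S) // Valid μ A p}),
        H ⊆ s.1.2 (sInf s.1.1) ∧ μ (sInf s.1.1) < #H ∧ H.Pairwise (fun x y => col x y = b) ∧
        s'.1.1 ⊆ s.1.1 ∧ (∀ m ∈ s'.1.1, sInf s.1.1 < m) ∧
        ∀ m ∈ s'.1.1, s'.1.2 m ⊆ s.1.2 m ∧ ∀ x ∈ H, ∀ y ∈ s'.1.2 m, col x y = b := by
    rintro ⟨⟨D, Z⟩, hD, hDZ⟩
    obtain ⟨b, H, D', Z', h1, h2, h3, h4, h5, h6, h7⟩ := step col hsym κ μ hμ0 hμ A hA NH hκ D hD Z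
      (fun m hm => (hDZ m hm).1) (fun m hm => (hDZ m hm).2) (sInf D) (Nat.sInf_mem hD.nonempty)
    exact ⟨b, H, ⟨(D', Z'), h5, fun m hm => ⟨(h7 m hm).1.trans (hDZ m (h4 hm)).1, (h7 m hm).2.1⟩⟩,
      h1, h2, h3, h4, h6, fun m hm => ⟨(h7 m hm).1, (h7 m hm).2.2⟩⟩
  choose b H nxt hHZ hHc hHp hD1 hD2 hD3 using hstep
  have hs0 : Valid μ A (Set.univ, A) :=
    ⟨Set.infinite_univ, fun m _ => ⟨subset_rfl, hA2 m⟩⟩
  let q : ℕ → {p : Set ℕ × (ℕ → Set S) // Valid μ A p} := fun k => nxt^[k] ⟨_, hs0⟩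
  have hq : ∀ k, q (k + 1) = nxt (q k) := fun k => Function.iterate_succ_apply' _ _ _
  have hmono : ∀ k l, k ≤ l → (q l).1.1 ⊆ (q k).1.1 ∧ ∀ m ∈ (q l).1.1, (q l).1.2 m ⊆ (q k).1.2 m := by
    intro k l hkl
    induction l, hkl using Nat.le_induction with
    | base => exact ⟨subset_rfl, fun m _ => subset_rfl⟩
    | succ l _ ih =>
      rw [hq l]
      refine ⟨(hD1 (q l)).trans ih.1, fun m hm => ((hD3 (q l) m hm).1).trans (ih.2 m (hD1 (q l) hm))⟩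
  have hmem : ∀ k, sInf (q k).1.1 ∈ (q k).1.1 := fun k => Nat.sInf_mem (q k).2.1.nonempty
  have hlt : ∀ k, sInf (q k).1.1 < sInf (q (k + 1)).1.1 := by
    intro k
    have := hmem (k + 1)
    rw [hq k] at this ⊢
    exact hD2 (q k) _ this
  have hge : ∀ k, k ≤ sInf (q k).1.1 := fun k => (strictMono_nat_of_lt_succ hlt).le_apply
  have hcross : ∀ k l, k < l → ∀ x ∈ H (q k), ∀ y ∈ H (q l), col x y = b (q k) := by
    intro k l hkl x hx y hy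
    have h1 : y ∈ (q l).1.2 (sInf (q l).1.1) := hHZ (q l) hy
    have h2 := hmono (k + 1) l hkl
    have h3 : y ∈ (q (k + 1)).1.2 (sInf (q l).1.1) := h2.2 _ (hmem l) h1
    have h4 : sInf (q l).1.1 ∈ (q (k + 1)).1.1 := h2.1 (hmem l)
    rw [hq k] at h3 h4
    exact (hD3 (q k) _ h4).2 x hx y h3
  obtain ⟨c, hc⟩ : ∃ c : Bool, {k | b (q k) = c}.Infinite := by
    have : (Set.univ : Set ℕ) ⊆ {k | b (q k) = true} ∪ {k | b (q k) = false} := by
      intro k _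
      cases h : b (q k)
      · exact Or.inr h
      · exact Or.inl h
    rcases Set.infinite_union.1 (Set.infinite_univ.mono this) with h | h
    · exact ⟨_, h⟩
    · exact ⟨_, h⟩
  have hU : (⋃ k ∈ {k | b (q k) = c}, H (q k)).Pairwise (fun x y => col x y = c) := by
    intro x hx y hy hxy
    simp only [mem_iUnion, mem_ofPred_eq] at hx hy
    obtain ⟨k, hk, hx⟩ := hx
    obtain ⟨l, hl, hy⟩ := hy
    rcases lt_trichotomy k l with h | h | h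
    · rw [hcross k l h x hx y hy, hk]
    · subst h
      have := hHp (q k) hx hy hxy
      rw [← hk]; exact this
    · rw [hsym, hcross l k h y hy x hx, hl]
  have h1 := NH c _ hU
  obtain ⟨n0, hn0⟩ := hcof _ h1
  obtain ⟨k, hk, hkn⟩ := hc.exists_gt n0
  have h2 := hn0 (sInf (q k).1.1) (hkn.le.trans (hge k))
  have h3 : #(H (q k)) ≤ #(⋃ k ∈ {k | b (q k) = c}, H (q k) : Set S) :=
    mk_le_mk_of_subset (subset_biUnion_of_mem (u := fun k => H (q k)) hk)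
  exact absurd (lt_of_lt_of_le (hHc (q k)) (h3.trans h2)) (lt_irrefl _)

end Pool.Agent.Helper865.AStar
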