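import Pool.Agent.Helper865.AStar.Base

namespace Pool.Agent.Helper865.AStar
open Cardinal Set Order
universe u

theorem exists_generic {S J : Type u} (lam : Cardinal.{u}) (hl : ℵ₀ ≤ lam) (Z : Set S)
    (hZ : lam < #Z) (hJ : #J ≤ lam) (B : J → Set S) :
    ∃ δ ∈ Z, ∀ j, δ ∈ B j → lam < #(B j) := by
  by_contra hcon
  push Not at hcon
  have hsub : Z ⊆ ⋃ j : {j : J // #(B j) ≤ lam}, B j.1 := by
    intro x hx
    obtain ⟨j, hj1, hj2⟩ := hcon x hx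
    exact mem_iUnion.2 ⟨⟨j, hj2⟩, hj1⟩
  have h1 : #Z ≤ lam := by
    refine (mk_le_mk_of_subset hsub).trans ((mk_iUnion_le _).trans ?_)
    have h2 : (⨆ j : {j : J // #(B j) ≤ lam}, #(B j.1)) ≤ lam := ciSup_le' (fun j => j.2)
    have h3 : #{j : J // #(B j) ≤ lam} ≤ lam := (mk_subtype_le _).trans hJ
    exact (mul_le_mul' h3 h2).trans (mul_eq_self hl).le
  exact absurd hZ (not_lt.2 h1)

theorem step {S : Type u} (col : S → S → Bool) (hsym : ∀ x y, col x y = col y x)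
    (κ : Cardinal.{u}) (μ : ℕ → Cardinal.{u}) (hμ0 : ∀ n, ℵ₀ ≤ μ n)
    (hμ : ∀ n m, n < m → succ (μ n) ≤ μ m) (A : ℕ → Set S)
    (hA : ∀ n m, n < m → #(A n) ≤ 2 ^ μ m)
    (NH : ∀ (b : Bool) (H : Set S), H.Pairwise (fun x y => col x y = b) → #H < κ)
    (hκ : ∀ n, κ ≤ 2 ^ μ n)
    (D : Set ℕ) (hD : D.Infinite) (Z : ℕ → Set S) (hZA : ∀ m ∈ D, Z m ⊆ A m)
    (hZ : ∀ m ∈ D, 2 ^ μ m < #(Z m)) (n : ℕ) (hn : n ∈ D) :
    ∃ (b : Bool) (H : Set S) (D' : Set ℕ) (Z' : ℕ → Set S), H ⊆ Z n ∧ μ n < #H ∧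
      H.Pairwise (fun x y => col x y = b) ∧ D' ⊆ D ∧ D'.Infinite ∧ (∀ m ∈ D', n < m) ∧
      ∀ m ∈ D', Z' m ⊆ Z m ∧ 2 ^ μ m < #(Z' m) ∧ ∀ x ∈ H, ∀ y ∈ Z' m, col x y = b := by
  classical
  have hgen : ∀ m, ∃ δ : S, m ∈ D → n < m → (δ ∈ Z m ∧ ∀ (b : Bool) (H : Set S), H ⊆ A n →
      #H ≤ μ m → (∀ x ∈ H, col x δ = b) → 2 ^ μ m < #{y | y ∈ Z m ∧ ∀ x ∈ H, col x y = b}) := by
    intro m
    by_cases hm : m ∈ D ∧ n < m
    · obtain ⟨hmD, hnm⟩ := hm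
      have hl : ℵ₀ ≤ (2 : Cardinal.{u}) ^ μ m := (hμ0 m).trans (cantor _).le
      have hJ : #({H : Set S // H ⊆ A n ∧ #H ≤ μ m} × ULift.{u} Bool) ≤ 2 ^ μ m := by
        rw [mk_prod, lift_id, lift_id]
        have h1 : #{H : Set S // H ⊆ A n ∧ #H ≤ μ m} ≤ 2 ^ μ m := by
          refine (mk_bounded_subset_le (A n) (μ m)).trans ?_
          refine (power_le_power_right (max_le (hA n m hnm) hl)).trans ?_
          rw [← power_mul, mul_eq_self (hμ0 m)]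
        have h2 : #(ULift.{u} Bool) ≤ 2 ^ μ m := by
          have : #(ULift.{u} Bool) = 2 := by simp
          rw [this]
          exact (natCast_lt_aleph0 (n := 2)).le.trans hl
        exact (mul_le_mul' h1 h2).trans (mul_eq_self hl).le
      obtain ⟨δ, hδ1, hδ2⟩ := exists_generic (2 ^ μ m) hl (Z m) (hZ m hmD) hJ
        (fun j => {y | y ∈ Z m ∧ ∀ x ∈ j.1.1, col x y = j.2.down})
      refine ⟨δ, fun _ _ => ⟨hδ1, fun b H hHA hHc hHδ => ?_⟩⟩
      exact hδ2 (⟨H, hHA, hHc⟩, ⟨b⟩) ⟨hδ1, hHδ⟩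
    · obtain ⟨x, hx⟩ : (Z n).Nonempty := by
        rw [← Set.nonempty_coe_sort, ← mk_ne_zero_iff]
        exact (lt_of_le_of_lt zero_le (hZ n hn)).ne'
      exact ⟨x, fun h1 h2 => absurd ⟨h1, h2⟩ hm⟩
  choose δ hδ using hgen
  have hl : ℵ₀ ≤ (2 : Cardinal.{u}) ^ μ n := (hμ0 n).trans (cantor _).le
  -- the pigeonhole
  obtain ⟨r0, hr0⟩ : ∃ r0 : ℕ → Bool,
      2 ^ μ n < #{x | x ∈ Z n ∧ (fun m => col x (δ m)) = r0} := by
    by_contra hcon
    push Not at hcon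
    have hsub : Z n ⊆ ⋃ r : ULift.{u} (ℕ → Bool),
        {x | x ∈ Z n ∧ (fun m => col x (δ m)) = r.down} := by
      intro x hx
      exact mem_iUnion.2 ⟨⟨fun m => col x (δ m)⟩, hx, rfl⟩
    have h1 : #(Z n) ≤ 2 ^ μ n := by
      refine (mk_le_mk_of_subset hsub).trans ((mk_iUnion_le _).trans ?_)
      have h2 : (⨆ r : ULift.{u} (ℕ → Bool),
          #{x | x ∈ Z n ∧ (fun m => col x (δ m)) = r.down}) ≤ 2 ^ μ n :=
        ciSup_le' (fun r => hcon r.down)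
      have h3 : #(ULift.{u} (ℕ → Bool)) ≤ 2 ^ μ n := by
        have : #(ULift.{u} (ℕ → Bool)) = 2 ^ (ℵ₀ : Cardinal.{u}) := by simp
        rw [this]
        exact power_le_power_left two_ne_zero (hμ0 n)
      exact (mul_le_mul' h3 h2).trans (mul_eq_self hl).le
    exact absurd (hZ n hn) (not_lt.2 h1)
  have hDn : {m | m ∈ D ∧ n < m}.Infinite := by
    have : D ⊆ {m | m ∈ D ∧ n < m} ∪ Set.Iic n := by
      intro m hm
      by_cases h : n < m
      · exact Or.inl ⟨hm, h⟩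
      · exact Or.inr (not_lt.1 h)
    have h2 := hD.mono this
    rcases Set.infinite_union.1 h2 with h | h
    · exact h
    · exact absurd (Set.finite_Iic n) h
  obtain ⟨b, hb⟩ : ∃ b : Bool, {m | (m ∈ D ∧ n < m) ∧ r0 m = b}.Infinite := by
    have : {m | m ∈ D ∧ n < m} ⊆ {m | (m ∈ D ∧ n < m) ∧ r0 m = true} ∪
        {m | (m ∈ D ∧ n < m) ∧ r0 m = false} := by
      intro m hm
      cases h : r0 m
      · exact Or.inr ⟨hm, h⟩
      · exact Or.inl ⟨hm, h⟩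
    rcases Set.infinite_union.1 (hDn.mono this) with h | h
    · exact ⟨_, h⟩
    · exact ⟨_, h⟩
  -- Erdős–Rado inside the fibre
  have hER := erdos_rado (X := {x | x ∈ Z n ∧ (fun m => col x (δ m)) = r0}) (μ n) (hμ0 n)
    (fun x y => col x.1 y.1 = b) (fun x y h => by rw [hsym]; exact h) hr0
  rcases hER with ⟨K, hK, hKp⟩ | ⟨I, hI, hIp⟩
  · have hK' : succ (μ n) ≤ #(Subtype.val '' K : Set S) := by
      rw [mk_image_eq Subtype.val_injective]
      exact Order.succ_le_of_lt hK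
    obtain ⟨H, hHK, hHc⟩ := le_mk_iff_exists_subset.1 hK'
    have hHZ : ∀ x ∈ H, x ∈ Z n ∧ (fun m => col x (δ m)) = r0 := by
      intro x hx
      obtain ⟨y, hy, rfl⟩ := hHK hx
      exact y.2
    refine ⟨b, H, {m | (m ∈ D ∧ n < m) ∧ r0 m = b},
      fun m => {y | y ∈ Z m ∧ ∀ x ∈ H, col x y = b}, fun x hx => (hHZ x hx).1, ?_, ?_,
      fun m hm => hm.1.1, hb, fun m hm => hm.1.2, ?_⟩
    · rw [hHc]; exact lt_succ _
    · intro x hx y hy hxy
      obtain ⟨x', hx', rfl⟩ := hHK hx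
      obtain ⟨y', hy', rfl⟩ := hHK hy
      exact hKp hx' hy' (fun h => hxy (by rw [h]))
    · rintro m ⟨⟨hmD, hnm⟩, hm⟩
      refine ⟨fun y hy => hy.1, ?_, fun x hx y hy => hy.2 x hx⟩
      refine (hδ m hmD hnm).2 b H (fun x hx => hZA n hn (hHZ x hx).1) ?_ ?_
      · rw [hHc]; exact hμ n m hnm
      · intro x hx
        have := congrFun (hHZ x hx).2 m
        rw [← hm]
        exact this
  · exfalso
    have h1 := NH (!b) (Subtype.val '' I) (by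
      rintro _ ⟨x, hx, rfl⟩ _ ⟨y, hy, rfl⟩ hxy
      have := hIp hx hy (fun h => hxy (by rw [h]))
      simp only [] at this ⊢
      cases b <;> simpa using this)
    rw [mk_image_eq Subtype.val_injective] at h1
    exact absurd ((hκ n).trans hI.le) (not_le.2 h1)

end Pool.Agent.Helper865.AStar
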